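import Pool.Agent.H61.CMC.TargetsE1

/-!
# Board cm4_modules, row E1_KDG: the kernel is holomorphic (after H38/CM4B/KCD)
-/

set_option autoImplicit false

open MeasureTheory Set Filter NumberField NumberField.InfinitePlace NumberField.Units
  NumberField.Units.dirichletUnitTheorem Pool.Agent.H65.CM4 Pool.Agent.H65.CMC Pool.Agent.H25.HK
  Pool.Agent.H61.CM4 Pool.Agent.H61.CMC
open scoped Real

namespace Pool.Agent.H42.CMC1

theorem intg (m : ℕ) (a b : ℝ) (ha : 0 ≤ a) :
    Integrable (fun t : ℝ => (1 + |t|) ^ m * Real.exp (a * |t|) * Real.exp (-(t - b) ^ 2)) := by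
  have hI : Integrable (fun t : ℝ => Real.exp (-(1 / 2) * (t - b) ^ 2)) :=
    (integrable_exp_neg_mul_sq (by norm_num : (0 : ℝ) < 1 / 2)).comp_sub_right b
  refine (hI.const_mul ((m.factorial : ℝ) * Real.exp (1 + (a + 1) * |b| + (a + 1) ^ 2 / 2))).mono'
    (Continuous.aestronglyMeasurable (by fun_prop)) (ae_of_all _ fun t => ?_)
  rw [Real.norm_of_nonneg (by positivity)]
  have h1 : (1 + |t|) ^ m ≤ (m.factorial : ℝ) * Real.exp (1 + |t|) := by
    have h2 := Real.pow_div_factorial_le_exp (1 + |t|) (by positivity) m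
    rw [div_le_iff₀ (by positivity)] at h2
    linarith
  have h3 : |t| ≤ |t - b| + |b| := by
    have := abs_add_le (t - b) b
    rwa [sub_add_cancel] at this
  have h4 : (a + 1) * |t - b| ≤ (a + 1) ^ 2 / 2 + (t - b) ^ 2 / 2 := by
    have := sq_nonneg (a + 1 - |t - b|)
    have h5 := sq_abs (t - b)
    nlinarith
  have h6 : 1 + |t| + a * |t| + -(t - b) ^ 2 ≤
      1 + (a + 1) * |b| + (a + 1) ^ 2 / 2 + -(1 / 2) * (t - b) ^ 2 := by
    have h7 : (a + 1) * |t| ≤ (a + 1) * (|t - b| + |b|) :=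
      mul_le_mul_of_nonneg_left h3 (by linarith)
    nlinarith
  have e3 : Real.exp (1 + |t|) * Real.exp (a * |t|) * Real.exp (-(t - b) ^ 2) =
      Real.exp (1 + |t| + a * |t| + -(t - b) ^ 2) := by
    rw [← Real.exp_add, ← Real.exp_add]
  calc (1 + |t|) ^ m * Real.exp (a * |t|) * Real.exp (-(t - b) ^ 2) ≤
        (m.factorial : ℝ) * Real.exp (1 + |t|) * Real.exp (a * |t|) * Real.exp (-(t - b) ^ 2) := by
          gcongr
    _ = (m.factorial : ℝ) * Real.exp (1 + |t| + a * |t| + -(t - b) ^ 2) := by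
        rw [← e3]; ring
    _ ≤ (m.factorial : ℝ) * Real.exp (1 + (a + 1) * |b| + (a + 1) ^ 2 / 2 +
          -(1 / 2) * (t - b) ^ 2) :=
        mul_le_mul_of_nonneg_left (Real.exp_le_exp.2 h6) (by positivity)
    _ = _ := by rw [Real.exp_add]; ring

theorem den_le (s : ℂ) (t : ℝ) : 2 - s.re ≤ ‖(2 + t * Complex.I - s : ℂ)‖ := by
  have h := Complex.re_le_norm (2 + t * Complex.I - s)
  simpa using h

theorem nexp (s : ℂ) (t : ℝ) : ‖Complex.exp ((2 + t * Complex.I - s) ^ 2)‖ =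
    Real.exp ((2 - s.re) ^ 2) * Real.exp (-(t - s.im) ^ 2) := by
  rw [Complex.norm_exp, ← Real.exp_add]
  congr 1
  rw [sq, Complex.mul_re]
  simp
  ring

theorem ncpow (r : ℂ) (hr : r ≠ 0) (t : ℝ) :
    ‖r ^ (-(2 + t * Complex.I))‖ ≤ ‖r‖ ^ (-(2 : ℝ)) * Real.exp (π * |t|) := by
  rw [Complex.norm_cpow_of_ne_zero hr]
  have e1 : (-(2 + t * Complex.I) : ℂ).re = -2 := by simp
  have e2 : (-(2 + t * Complex.I) : ℂ).im = -t := by simp
  rw [e1, e2, div_eq_mul_inv, ← Real.exp_neg]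
  refine mul_le_mul_of_nonneg_left ?_ (Real.rpow_nonneg (norm_nonneg _) _)
  rw [Real.exp_le_exp]
  have h1 : -(r.arg * -t) = r.arg * t := by ring
  rw [h1]
  calc r.arg * t ≤ |r.arg * t| := le_abs_self _
    _ = |r.arg| * |t| := abs_mul _ _
    _ ≤ π * |t| := mul_le_mul_of_nonneg_right (Complex.abs_arg_le_pi r) (abs_nonneg t)

theorem pf_KDG : T_KDG := by
  intro G hG s hs1 hs2
  obtain ⟨hGd, hGb⟩ := hG
  obtain ⟨C, j, hC0, hC⟩ := hGb 2
  have hd0 : 0 < 2 - s.re := by linarith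
  set A : ℝ := C * Real.exp ((2 - s.re) ^ 2) with hA
  have hA0 : 0 ≤ A := by positivity
  -- the integrand without the power
  have hcont : Continuous fun t : ℝ => G (2 + t * Complex.I) *
      (Complex.exp ((2 + t * Complex.I - s) ^ 2) / (2 + t * Complex.I - s)) := by
    refine Continuous.mul ?_ (Continuous.div ?_ ?_ ?_)
    · rw [continuous_iff_continuousAt]
      intro t
      have h1 : ContinuousAt G ((2 : ℂ) + t * Complex.I) :=
        (hGd _ (by simp)).continuousAt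
      exact ContinuousAt.comp (f := fun t : ℝ => (2 : ℂ) + t * Complex.I) h1
        (by fun_prop)
    · fun_prop
    · fun_prop
    · intro t h0
      have h1 := den_le s t
      rw [h0, norm_zero] at h1
      linarith
  have hbase : ∀ (t : ℝ) (r : ℂ), r ∈ Complex.slitPlane →
      ‖G (2 + t * Complex.I) *
        (Complex.exp ((2 + t * Complex.I - s) ^ 2) / (2 + t * Complex.I - s)) *
          r ^ (-(2 + t * Complex.I))‖ ≤ (2 - s.re)⁻¹ * (A * ‖r‖ ^ (-(2 : ℝ))) *
        ((1 + |t|) ^ j * Real.exp (π * |t|) * Real.exp (-(t - s.im) ^ 2)) := by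
    intro t r hr
    have hr0 : r ≠ 0 := Complex.slitPlane_ne_zero hr
    have h1 : ‖G (2 + t * Complex.I)‖ ≤ C * (1 + |t|) ^ j := by
      have h := hC (2 + t * Complex.I) (by simp) (by simp)
      simpa using h
    have h2 := ncpow r hr0 t
    have h3 : ‖(2 + t * Complex.I - s : ℂ)‖⁻¹ ≤ (2 - s.re)⁻¹ := inv_anti₀ hd0 (den_le s t)
    have hr1 : 0 ≤ ‖r‖ ^ (-(2 : ℝ)) := Real.rpow_nonneg (norm_nonneg _) _
    rw [norm_mul, norm_mul, norm_div, nexp, div_eq_mul_inv]
    calc ‖G (2 + t * Complex.I)‖ * (Real.exp ((2 - s.re) ^ 2) * Real.exp (-(t - s.im) ^ 2) *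
          ‖(2 + t * Complex.I - s : ℂ)‖⁻¹) * ‖r ^ (-(2 + t * Complex.I))‖
        ≤ (C * (1 + |t|) ^ j) * (Real.exp ((2 - s.re) ^ 2) * Real.exp (-(t - s.im) ^ 2) *
          (2 - s.re)⁻¹) * (‖r‖ ^ (-(2 : ℝ)) * Real.exp (π * |t|)) := by gcongr
      _ = _ := by rw [hA]; ring
  intro r hr
  have hr0 : r ≠ 0 := Complex.slitPlane_ne_zero hr
  have hn : 0 < ‖r‖ := norm_pos_iff.2 hr0
  set ρ : ℝ := ‖r‖ / 2 with hρ
  have hρ0 : 0 < ρ := by positivity
  have hS : {r' : ℂ | r' ∈ Complex.slitPlane ∧ ρ < ‖r'‖} ∈ nhds r :=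
    (Complex.isOpen_slitPlane.inter (isOpen_lt continuous_const continuous_norm)).mem_nhds
      ⟨hr, by rw [hρ]; exact half_lt_self hn⟩
  have hmeas : ∀ r' : ℂ, r' ≠ 0 → AEStronglyMeasurable (fun t : ℝ => G (2 + t * Complex.I) *
      (Complex.exp ((2 + t * Complex.I - s) ^ 2) / (2 + t * Complex.I - s)) *
        r' ^ (-(2 + t * Complex.I))) volume := by
    intro r' h0
    refine (hcont.mul ?_).aestronglyMeasurable
    exact Continuous.const_cpow (by fun_prop) (Or.inl h0)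
  have hder : ∀ (t : ℝ) (r' : ℂ), r' ∈ Complex.slitPlane →
      HasDerivAt (fun r' : ℂ => G (2 + t * Complex.I) *
      (Complex.exp ((2 + t * Complex.I - s) ^ 2) / (2 + t * Complex.I - s)) *
        r' ^ (-(2 + t * Complex.I)))
      (G (2 + t * Complex.I) *
      (Complex.exp ((2 + t * Complex.I - s) ^ 2) / (2 + t * Complex.I - s)) *
        (-(2 + t * Complex.I) * r' ^ (-(2 + t * Complex.I) - 1))) r' := by
    intro t r' hr'
    have h1 := (hasDerivAt_id r').cpow_const (c := -(2 + t * Complex.I)) hr'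
    simp only [id, mul_one] at h1
    exact h1.const_mul _
  have hmain := hasDerivAt_integral_of_dominated_loc_of_deriv_le (μ := (volume : Measure ℝ))
    (F := fun (r' : ℂ) (t : ℝ) => G (2 + t * Complex.I) *
      (Complex.exp ((2 + t * Complex.I - s) ^ 2) / (2 + t * Complex.I - s)) *
        r' ^ (-(2 + t * Complex.I)))
    (F' := fun (r' : ℂ) (t : ℝ) => G (2 + t * Complex.I) *
      (Complex.exp ((2 + t * Complex.I - s) ^ 2) / (2 + t * Complex.I - s)) *
        (-(2 + t * Complex.I) * r' ^ (-(2 + t * Complex.I) - 1))) (x₀ := r)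
    (bound := fun t => (2 - s.re)⁻¹ * (A * ρ ^ (-(2 : ℝ))) * (2 * ρ⁻¹) *
      ((1 + |t|) ^ (j + 1) * Real.exp (π * |t|) * Real.exp (-(t - s.im) ^ 2))) hS
    (by
      filter_upwards [hS] with r' hr'
      exact hmeas r' (Complex.slitPlane_ne_zero hr'.1))
    (by
      refine ((intg j π s.im Real.pi_pos.le).const_mul
        ((2 - s.re)⁻¹ * (A * ‖r‖ ^ (-(2 : ℝ))))).mono' (hmeas r hr0) (ae_of_all _ fun t => ?_)
      exact hbase t r hr)
    (by
      refine (hcont.mul (Continuous.mul (by fun_prop) ?_)).aestronglyMeasurable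
      exact Continuous.const_cpow (by fun_prop) (Or.inl hr0))
    (ae_of_all _ fun t r' hr' => by
      have h0 : r' ≠ 0 := Complex.slitPlane_ne_zero hr'.1
      have e1 : r' ^ (-(2 + t * Complex.I) - 1) = r' ^ (-(2 + t * Complex.I)) * r'⁻¹ := by
        rw [Complex.cpow_sub _ _ h0, Complex.cpow_one, div_eq_mul_inv]
      have e2 : G (2 + t * Complex.I) *
          (Complex.exp ((2 + t * Complex.I - s) ^ 2) / (2 + t * Complex.I - s)) *
          (-(2 + t * Complex.I) * r' ^ (-(2 + t * Complex.I) - 1)) =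
          (G (2 + t * Complex.I) *
          (Complex.exp ((2 + t * Complex.I - s) ^ 2) / (2 + t * Complex.I - s)) *
            r' ^ (-(2 + t * Complex.I))) * (-(2 + t * Complex.I) * r'⁻¹) := by
        rw [e1]; ring
      have h2 := hbase t r' hr'.1
      have h3 : ‖(-(2 + t * Complex.I) * r'⁻¹ : ℂ)‖ ≤ 2 * ρ⁻¹ * (1 + |t|) := by
        rw [norm_mul, norm_neg, norm_inv]
        have h4 : ‖(2 + t * Complex.I : ℂ)‖ ≤ 2 * (1 + |t|) := by
          refine (norm_add_le _ _).trans ?_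
          rw [norm_mul, Complex.norm_I, Complex.norm_real, Real.norm_eq_abs, mul_one]
          have h5 : ‖(2 : ℂ)‖ = 2 := by simp
          rw [h5]
          have := abs_nonneg t
          linarith
        calc ‖(2 + t * Complex.I : ℂ)‖ * ‖r'‖⁻¹ ≤ 2 * (1 + |t|) * ρ⁻¹ :=
              mul_le_mul h4 (inv_anti₀ hρ0 hr'.2.le) (inv_nonneg.2 (norm_nonneg _))
                (by positivity)
          _ = _ := by ring
      have h6 : ‖r'‖ ^ (-(2 : ℝ)) ≤ ρ ^ (-(2 : ℝ)) :=
        Real.rpow_le_rpow_of_nonpos hρ0 hr'.2.le (by norm_num)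
      have hd1 : 0 ≤ (2 - s.re)⁻¹ := inv_nonneg.2 hd0.le
      rw [e2, norm_mul]
      calc _ ≤ ((2 - s.re)⁻¹ * (A * ρ ^ (-(2 : ℝ))) *
            ((1 + |t|) ^ j * Real.exp (π * |t|) * Real.exp (-(t - s.im) ^ 2))) *
            (2 * ρ⁻¹ * (1 + |t|)) := by
              refine mul_le_mul (h2.trans ?_) h3 (norm_nonneg _) ?_
              · gcongr
              · have := Real.rpow_nonneg hρ0.le (-(2 : ℝ))
                positivity
        _ = _ := by ring)
    ((intg (j + 1) π s.im Real.pi_pos.le).const_mul _)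
    (ae_of_all _ fun t r' hr' => hder t r' hr'.1)
  have h7 := hmain.2.const_mul ((1 / (2 * π) : ℝ) : ℂ)
  exact h7.differentiableAt.differentiableWithinAt

end Pool.Agent.H42.CMC1
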