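import Pool.Agent.H61.CMC.TargetsE1

/-!
# Board cm4_modules, row E1_SKG: sums of kernels
-/

set_option autoImplicit false

open MeasureTheory Set Filter NumberField NumberField.InfinitePlace NumberField.Units
  NumberField.Units.dirichletUnitTheorem Pool.Agent.H65.CM4 Pool.Agent.H65.CMC Pool.Agent.H25.HK
  Pool.Agent.H61.CM4 Pool.Agent.H61.CMC
open scoped Real

namespace Pool.Agent.H42.CMC1

theorem pf_SKG (hKSG : T_KSG) : T_SKG := by
  intro G hG s ι c a hs1 hs2 hc ha hsum
  have hcount : Countable ι := by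
    have h := hsum.countable_support
    have hu : (Function.support fun i => (a i) ^ (-2 : ℝ)) = Set.univ := by
      ext i
      simp only [Function.mem_support, ne_eq, Set.mem_univ, iff_true]
      exact (Real.rpow_pos_of_pos (ha i) _).ne'
    rw [hu] at h
    exact Set.countable_univ_iff.mp h
  set H : ℝ → ℂ := fun t => G (2 + t * Complex.I) *
    (Complex.exp ((2 + t * Complex.I - s) ^ 2) / (2 + t * Complex.I - s)) with hH
  have hslit : ∀ i, ((a i : ℝ) : ℂ) ∈ Complex.slitPlane := fun i =>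
    Complex.ofReal_mem_slitPlane.mpr (ha i)
  have hF0 : ∀ i, Integrable (fun t : ℝ => H t * ((a i : ℝ) : ℂ) ^ (-(2 + t * Complex.I))) := by
    intro i
    have h := (hKSG G hG s ((a i : ℝ) : ℂ) 2 hs1 hs2 hs2 (by norm_num) (hslit i)).1
    simpa only [Complex.ofReal_ofNat] using h
  have hF : ∀ i, Integrable (fun t : ℝ =>
      c i * (H t * ((a i : ℝ) : ℂ) ^ (-(2 + t * Complex.I)))) := fun i => (hF0 i).const_mul _
  have hnorm : ∀ i, ∀ t : ℝ, ‖c i * (H t * ((a i : ℝ) : ℂ) ^ (-(2 + t * Complex.I)))‖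
      = (‖c i‖ * (a i) ^ (-2 : ℝ)) * ‖H t‖ := by
    intro i t
    rw [norm_mul, norm_mul, Complex.norm_cpow_eq_rpow_re_of_pos (ha i)]
    simp
    ring
  have hint : ∀ i, ∫ t : ℝ, ‖c i * (H t * ((a i : ℝ) : ℂ) ^ (-(2 + t * Complex.I)))‖
      = (‖c i‖ * (a i) ^ (-2 : ℝ)) * ∫ t : ℝ, ‖H t‖ := by
    intro i
    simp only [hnorm i]
    exact integral_const_mul _ _
  have hsum1 : Summable fun i => ‖c i‖ * (a i) ^ (-2 : ℝ) := by
    refine Summable.of_nonneg_of_le (fun i => ?_) (fun i => ?_) hsum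
    · exact mul_nonneg (norm_nonneg _) (Real.rpow_nonneg (ha i).le _)
    · calc ‖c i‖ * (a i) ^ (-2 : ℝ) ≤ 1 * (a i) ^ (-2 : ℝ) :=
            mul_le_mul_of_nonneg_right (hc i) (Real.rpow_nonneg (ha i).le _)
        _ = _ := one_mul _
  have hsum2 : Summable fun i =>
      ∫ t : ℝ, ‖c i * (H t * ((a i : ℝ) : ℂ) ^ (-(2 + t * Complex.I)))‖ := by
    simp only [hint]
    exact hsum1.mul_right _
  have hK : ∀ i, c i * KG G s ((a i : ℝ) : ℂ) = ((1 / (2 * π) : ℝ) : ℂ) *
      ∫ t : ℝ, c i * (H t * ((a i : ℝ) : ℂ) ^ (-(2 + t * Complex.I))) := by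
    intro i
    rw [integral_const_mul]
    unfold KG
    ring
  constructor
  · refine Summable.of_nonneg_of_le (fun i => norm_nonneg _) (fun i => ?_)
      (hsum2.mul_left ‖((1 / (2 * π) : ℝ) : ℂ)‖)
    rw [hK i, norm_mul]
    exact mul_le_mul_of_nonneg_left (norm_integral_le_integral_norm _) (norm_nonneg _)
  · have hs := (hasSum_integral_of_summable_integral_norm hF hsum2).tsum_eq
    simp only [hK]
    rw [tsum_mul_left, hs]
    congr 1
    refine integral_congr_ae (Filter.Eventually.of_forall fun t => ?_)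
    simp only [hH]
    have e : ∀ i, c i * (G (2 + t * Complex.I) *
        (Complex.exp ((2 + t * Complex.I - s) ^ 2) / (2 + t * Complex.I - s)) *
        ((a i : ℝ) : ℂ) ^ (-(2 + t * Complex.I))) = (G (2 + t * Complex.I) *
        (Complex.exp ((2 + t * Complex.I - s) ^ 2) / (2 + t * Complex.I - s))) *
        (c i * ((a i : ℝ) : ℂ) ^ (-(2 + t * Complex.I))) := fun i => by ring
    simp only [e]
    rw [tsum_mul_left]
    ring

end Pool.Agent.H42.CMC1
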